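import Mathlib

/-!
# A bump with uniformly continuous second derivative on an `ℓ₂`-sum
-/

open scoped lp ENNReal

namespace Pool.Agent.Helper40.UC

section Taylor

variable {X : Type*} [NormedAddCommGroup X] [NormedSpace ℝ X]

/-- A second order Taylor estimate. -/
theorem taylor {f : X → ℝ} (hf : ContDiff ℝ 2 f) {ε : ℝ} (x h : X)
    (hε : ∀ t ∈ Set.Icc (0 : ℝ) 1,
      ‖fderiv ℝ (fderiv ℝ f) (x + t • h) - fderiv ℝ (fderiv ℝ f) x‖ ≤ ε) :
    f x + fderiv ℝ f x h + (1 / 2) * fderiv ℝ (fderiv ℝ f) x h h - ε / 2 * ‖h‖ ^ 2 ≤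
      f (x + h) := by
  have hf1 : Differentiable ℝ f := hf.differentiable (by norm_num)
  have hf2 : Differentiable ℝ (fderiv ℝ f) :=
    (hf.fderiv_right (m := 1) (by norm_num)).differentiable (by norm_num)
  set c : ℝ := fderiv ℝ (fderiv ℝ f) x h h - ε * ‖h‖ ^ 2 with hc
  have hline : ∀ t : ℝ, HasDerivAt (fun t : ℝ => x + t • h) h t := by
    intro t
    have h1 := (hasDerivAt_id t).smul_const h
    rw [one_smul] at h1
    exact h1.const_add x
  -- the first derivative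
  let ψ : ℝ → ℝ := fun t => fderiv ℝ f (x + t • h) h - fderiv ℝ f x h - c * t
  have hψ : ∀ t, HasDerivAt ψ (fderiv ℝ (fderiv ℝ f) (x + t • h) h h - c) t := by
    intro t
    have h1 : HasDerivAt (fun t : ℝ => fderiv ℝ f (x + t • h))
        (fderiv ℝ (fderiv ℝ f) (x + t • h) h) t :=
      (hf2 (x + t • h)).hasFDerivAt.comp_hasDerivAt t (hline t)
    have h2 : HasDerivAt (fun t : ℝ => fderiv ℝ f (x + t • h) h)
        (fderiv ℝ (fderiv ℝ f) (x + t • h) h h) t := by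
      have := h1.clm_apply (hasDerivAt_const t h)
      simpa using this
    have h3 := (h2.sub_const (fderiv ℝ f x h)).sub ((hasDerivAt_id t).const_mul c)
    refine h3.congr_deriv ?_
    simp
  have hψ0 : ψ 0 = 0 := by simp [ψ]
  have hpos2 : ∀ t ∈ Set.Icc (0 : ℝ) 1, 0 ≤ fderiv ℝ (fderiv ℝ f) (x + t • h) h h - c := by
    intro t ht
    have h1 := hε t ht
    have h2 : |(fderiv ℝ (fderiv ℝ f) (x + t • h) - fderiv ℝ (fderiv ℝ f) x) h h| ≤
        ε * ‖h‖ ^ 2 := by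
      have h3 := ((fderiv ℝ (fderiv ℝ f) (x + t • h) - fderiv ℝ (fderiv ℝ f) x) h).le_opNorm h
      have h4 := (fderiv ℝ (fderiv ℝ f) (x + t • h) - fderiv ℝ (fderiv ℝ f) x).le_opNorm h
      rw [Real.norm_eq_abs] at h3
      calc _ ≤ _ := h3
        _ ≤ (ε * ‖h‖) * ‖h‖ := by
            refine mul_le_mul_of_nonneg_right (h4.trans ?_) (norm_nonneg _)
            exact mul_le_mul_of_nonneg_right h1 (norm_nonneg _)
        _ = ε * ‖h‖ ^ 2 := by ring
    have h5 := neg_abs_le ((fderiv ℝ (fderiv ℝ f) (x + t • h) - fderiv ℝ (fderiv ℝ f) x) h h)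
    simp only [ContinuousLinearMap.sub_apply] at h2 h5
    rw [hc]
    linarith
  have hψpos : ∀ t ∈ Set.Icc (0 : ℝ) 1, 0 ≤ ψ t := by
    intro t ht
    rcases eq_or_lt_of_le ht.1 with h0 | h0
    · rw [← h0, hψ0]
    · obtain ⟨s, hs, hs'⟩ := exists_hasDerivAt_eq_slope ψ _ h0
        (fun s _ => (hψ s).continuousAt.continuousWithinAt) (fun s _ => hψ s)
      have h1 := hpos2 s ⟨hs.1.le, hs.2.le.trans ht.2⟩
      rw [hs', hψ0, sub_zero, sub_zero] at h1
      by_contra hneg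
      push Not at hneg
      exact absurd h1 (not_le.2 (div_neg_of_neg_of_pos hneg h0))
  let φ : ℝ → ℝ := fun t => f (x + t • h) - f x - t * fderiv ℝ f x h - c / 2 * t ^ 2
  have hφ : ∀ t, HasDerivAt φ (ψ t) t := by
    intro t
    have h1 : HasDerivAt (fun t : ℝ => f (x + t • h)) (fderiv ℝ f (x + t • h) h) t :=
      (hf1 (x + t • h)).hasFDerivAt.comp_hasDerivAt t (hline t)
    have h2 := ((h1.sub_const (f x)).sub ((hasDerivAt_id t).mul_const (fderiv ℝ f x h))).sub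
      (((hasDerivAt_id t).pow 2).const_mul (c / 2))
    refine h2.congr_deriv ?_
    simp only [ψ, id]
    ring
  obtain ⟨s, hs, hs'⟩ := exists_hasDerivAt_eq_slope φ ψ (zero_lt_one)
    (fun s _ => (hφ s).continuousAt.continuousWithinAt) (fun s _ => hφ s)
  have h1 := hψpos s ⟨hs.1.le, hs.2.le⟩
  rw [hs'] at h1
  simp only [φ, one_smul, zero_smul, add_zero, sub_self, zero_mul, one_pow, mul_one, sub_zero,
    div_one, one_mul] at h1
  rw [hc] at h1
  norm_num at h1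
  linarith

theorem exists_unif {f : X → ℝ} (hu : UniformContinuous (fderiv ℝ (fderiv ℝ f))) {η : ℝ}
    (hη : 0 < η) : ∃ δ > 0, δ ≤ 1 ∧ ∀ x y : X, dist x y ≤ δ →
      ‖fderiv ℝ (fderiv ℝ f) x - fderiv ℝ (fderiv ℝ f) y‖ ≤ η := by
  obtain ⟨δ₀, hδ₀, hδu⟩ := (@Metric.uniformContinuous_iff X (X →L[ℝ] X →L[ℝ] ℝ) _ _
    (fderiv ℝ (fderiv ℝ f))).1 hu η hη
  refine ⟨min (δ₀ / 2) 1, by positivity, min_le_right _ _, fun x y hxy => ?_⟩
  have hlt : dist x y < δ₀ := by
    calc dist x y ≤ min (δ₀ / 2) 1 := hxy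
      _ ≤ δ₀ / 2 := min_le_left _ _
      _ < δ₀ := by linarith
  have h1 := (hδu hlt).le
  have h2 : ‖fderiv ℝ (fderiv ℝ f) x - fderiv ℝ (fderiv ℝ f) y‖ =
    dist (fderiv ℝ (fderiv ℝ f) x) (fderiv ℝ (fderiv ℝ f) y) :=
    (dist_eq_norm (fderiv ℝ (fderiv ℝ f) x) (fderiv ℝ (fderiv ℝ f) y)).symm
  rw [h2]
  exact h1

end Taylor

/-- `E` is isomorphic to a Hilbert space, with constant `C`. -/
def Hilb (C : ℝ) (E : Type*) [NormedAddCommGroup E] [NormedSpace ℝ E] : Prop :=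
  ∃ A : E →L[ℝ] E →L[ℝ] ℝ, ∀ y, ‖y‖ ^ 2 ≤ A y y ∧ A y y ≤ C * ‖y‖ ^ 2

section Game

variable {E : ℕ → Type*} [∀ n, NormedAddCommGroup (E n)] [∀ n, NormedSpace ℝ (E n)]

/-- One step: if `E n` is not Hilbertian with a large constant, there is a direction in which the
function does not decrease much. -/
theorem step {f : lp E 2 → ℝ} {η : ℝ} (hη : 0 < η) (x : lp E 2) (n : ℕ)
    (hn : ¬ Hilb (‖fderiv ℝ (fderiv ℝ f) x‖ / η) (E n)) {δ : ℝ} (hδ : 0 < δ) :
    ∃ h : E n, ‖h‖ = δ ∧ 0 ≤ fderiv ℝ f x (lp.single 2 n h) ∧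
      - η * δ ^ 2 ≤ fderiv ℝ (fderiv ℝ f) x (lp.single 2 n h) (lp.single 2 n h) := by
  -- a bad direction
  obtain ⟨y, hy0, hy⟩ : ∃ y : E n, y ≠ 0 ∧
      - η * ‖y‖ ^ 2 ≤ fderiv ℝ (fderiv ℝ f) x (lp.single 2 n y) (lp.single 2 n y) := by
    by_contra hcon
    push Not at hcon
    apply hn
    let S : E n →L[ℝ] lp E 2 := lp.singleContinuousLinearMap ℝ E 2 n
    have hS : ∀ y, S y = lp.single 2 n y := fun y => rfl
    have hSn : ∀ y, ‖S y‖ = ‖y‖ := fun y => by
      rw [hS, lp.norm_single (by norm_num)]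
    let A : E n →L[ℝ] E n →L[ℝ] ℝ :=
      (-η⁻¹) • ((fderiv ℝ (fderiv ℝ f) x).bilinearComp S S)
    have hA : ∀ y, A y y = -η⁻¹ * fderiv ℝ (fderiv ℝ f) x (S y) (S y) := fun y => rfl
    refine ⟨A, fun y => ⟨?_, ?_⟩⟩
    · rw [hA]
      by_cases hy : y = 0
      · subst hy
        simp
      · have h1 := hcon y hy
        rw [← hS] at h1
        have h2 : η⁻¹ * (η * ‖y‖ ^ 2) ≤
            η⁻¹ * -(fderiv ℝ (fderiv ℝ f) x (S y) (S y)) :=
          mul_le_mul_of_nonneg_left (by linarith) (inv_nonneg.2 hη.le)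
        rw [← mul_assoc, inv_mul_cancel₀ hη.ne', one_mul] at h2
        linarith
    · rw [hA]
      have h1 := (fderiv ℝ (fderiv ℝ f) x).le_opNorm (S y)
      have h2 := (fderiv ℝ (fderiv ℝ f) x (S y)).le_opNorm (S y)
      have h3 : |fderiv ℝ (fderiv ℝ f) x (S y) (S y)| ≤
          ‖fderiv ℝ (fderiv ℝ f) x‖ * ‖y‖ ^ 2 := by
        rw [Real.norm_eq_abs] at h2
        refine h2.trans ?_
        rw [hSn] at h1 ⊢
        calc _ ≤ (‖fderiv ℝ (fderiv ℝ f) x‖ * ‖y‖) * ‖y‖ :=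
              mul_le_mul_of_nonneg_right h1 (norm_nonneg _)
          _ = _ := by ring
      have h4 := neg_abs_le (fderiv ℝ (fderiv ℝ f) x (S y) (S y))
      rw [div_mul_eq_mul_div, le_div_iff₀ hη]
      have h5 : -η⁻¹ * fderiv ℝ (fderiv ℝ f) x (S y) (S y) * η =
          - fderiv ℝ (fderiv ℝ f) x (S y) (S y) := by
        field_simp
      rw [h5]
      linarith
  have hyn : 0 < ‖y‖ := norm_pos_iff.2 hy0
  -- scale and choose the sign
  have key : ∀ c : ℝ, |c| = δ / ‖y‖ → ‖c • y‖ = δ ∧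
      - η * δ ^ 2 ≤ fderiv ℝ (fderiv ℝ f) x (lp.single 2 n (c • y)) (lp.single 2 n (c • y)) := by
    intro c hc
    constructor
    · rw [norm_smul, Real.norm_eq_abs, hc, div_mul_cancel₀ _ hyn.ne']
    · rw [lp.single_smul, map_smul, map_smul, ContinuousLinearMap.smul_apply, smul_eq_mul,
        smul_eq_mul, ← mul_assoc, ← sq, ← sq_abs c, hc]
      have h1 := mul_le_mul_of_nonneg_left hy (sq_nonneg (δ / ‖y‖))
      have h2 : (δ / ‖y‖) ^ 2 * (-η * ‖y‖ ^ 2) = -η * δ ^ 2 := by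
        field_simp
      rw [h2] at h1
      exact h1
  have hpos : 0 < δ / ‖y‖ := div_pos hδ hyn
  rcases le_total 0 (fderiv ℝ f x (lp.single 2 n ((δ / ‖y‖) • y))) with h0 | h0
  · have h1 := key (δ / ‖y‖) (abs_of_pos hpos)
    exact ⟨_, h1.1, h0, h1.2⟩
  · have h1 := key (-(δ / ‖y‖)) (by rw [abs_neg, abs_of_pos hpos])
    refine ⟨_, h1.1, ?_, h1.2⟩
    rw [neg_smul, lp.single_neg, map_neg]
    linarith

/-- The game. -/
theorem game {f : lp E 2 → ℝ} (hf : ContDiff ℝ 2 f) {η δ : ℝ} (hη : 0 < η) (hδ : 0 < δ)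
    (hunif : ∀ x y : lp E 2, dist x y ≤ δ →
      ‖fderiv ℝ (fderiv ℝ f) x - fderiv ℝ (fderiv ℝ f) y‖ ≤ η)
    (hbad : ∀ C N, ∃ n ≥ N, ¬ Hilb C (E n)) (x₀ : lp E 2) (k : ℕ) :
    ∃ (s : Finset ℕ) (g : ∀ i, E i), s.card = k ∧ (∀ i ∈ s, ‖g i‖ = δ) ∧
      f x₀ - k * (η * δ ^ 2) ≤ f (x₀ + ∑ i ∈ s, lp.single 2 i (g i)) := by
  induction k with
  | zero => exact ⟨∅, fun _ => 0, rfl, by simp, by simp⟩
  | succ k ih =>
    obtain ⟨s, g, hs, hg, hfk⟩ := ih
    set x := x₀ + ∑ i ∈ s, lp.single 2 i (g i) with hx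
    obtain ⟨n, hn, hnH⟩ := hbad (‖fderiv ℝ (fderiv ℝ f) x‖ / η) (s.sup id + 1)
    have hns : n ∉ s := by
      intro h
      have h1 : n ≤ s.sup id := Finset.le_sup (f := id) h
      omega
    obtain ⟨h, hh, h1, h2⟩ := step hη x n hnH hδ
    refine ⟨insert n s, Function.update g n h, by rw [Finset.card_insert_of_notMem hns, hs],
      ?_, ?_⟩
    · intro i hi
      rcases Finset.mem_insert.1 hi with rfl | hi
      · rw [Function.update_self, hh]
      · have hne : i ≠ n := fun h => hns (h ▸ hi)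
        rw [Function.update_of_ne hne]
        exact hg i hi
    · have h3 : x₀ + ∑ i ∈ insert n s, lp.single 2 i (Function.update g n h i) =
          x + lp.single 2 n h := by
        rw [Finset.sum_insert hns, Function.update_self, hx]
        have h4 : ∑ i ∈ s, (lp.single 2 i (Function.update g n h i) : lp E 2) =
            ∑ i ∈ s, lp.single 2 i (g i) := by
          refine Finset.sum_congr rfl fun i hi => ?_
          have hne : i ≠ n := fun h => hns (h ▸ hi)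
          rw [Function.update_of_ne hne]
        rw [h4]
        abel
      rw [h3]
      have hsn : ‖(lp.single 2 n h : lp E 2)‖ = δ := by
        rw [lp.norm_single (by norm_num), hh]
      have h4 := taylor hf (ε := η) x (lp.single 2 n h) (by
        intro t ht
        apply hunif
        rw [dist_eq_norm, add_sub_cancel_left, norm_smul, hsn, Real.norm_eq_abs,
          abs_of_nonneg ht.1]
        calc t * δ ≤ 1 * δ := mul_le_mul_of_nonneg_right ht.2 hδ.le
          _ = δ := one_mul _)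
      rw [hsn] at h4
      push_cast
      linarith

/-- **Theorem.** If the `ℓ₂`-sum of the spaces `E n` has a bump with uniformly continuous second
derivative then all but finitely many `E n` are uniformly isomorphic to Hilbert spaces. -/
theorem hilb_of_bump {f : lp E 2 → ℝ} (hf0 : f ≠ 0)
    (hb : Bornology.IsBounded (Function.support f)) (hf : ContDiff ℝ 2 f)
    (hu : UniformContinuous (fderiv ℝ (fderiv ℝ f))) :
    ∃ (C : ℝ) (N : ℕ), ∀ n ≥ N, Hilb C (E n) := by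
  by_contra hcon
  push Not at hcon
  -- we may assume that `f` is positive somewhere
  obtain ⟨f, x₀, hx₀, hb, hf, hu⟩ : ∃ (f : lp E 2 → ℝ) (x₀ : lp E 2), 0 < f x₀ ∧
      Bornology.IsBounded (Function.support f) ∧ ContDiff ℝ 2 f ∧
      UniformContinuous (fderiv ℝ (fderiv ℝ f)) := by
    obtain ⟨x₀, hx₀⟩ := Function.ne_iff.1 hf0
    rcases lt_or_gt_of_ne hx₀ with h | h
    · refine ⟨fun x => - f x, x₀, by simpa using h, ?_, hf.neg, ?_⟩
      · rwa [show Function.support (fun x => - f x) = Function.support f by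
          ext x; simp]
      · have h1 : fderiv ℝ (fderiv ℝ fun x => - f x) = fun x => - fderiv ℝ (fderiv ℝ f) x := by
          have h2 : fderiv ℝ (fun x => - f x) = fun x => - fderiv ℝ f x := by
            ext1 x
            exact fderiv_fun_neg
          rw [h2]
          ext1 x
          exact fderiv_fun_neg
        rw [h1]
        exact hu.neg
    · exact ⟨f, x₀, h, hb, hf, hu⟩
  obtain ⟨R, hR⟩ := hb.exists_norm_le
  set a := f x₀ with ha
  -- a radius beyond the support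
  set R' := |R| + ‖x₀‖ + 1 with hR'
  have hR'pos : 0 < R' := by positivity
  set η := a / (2 * (R' ^ 2 + 1)) with hη
  have hηpos : 0 < η := by positivity
  obtain ⟨δ, hδpos, hδ1, hunif⟩ := exists_unif hu hηpos
  set k := ⌈R' ^ 2 / δ ^ 2⌉₊ with hk
  have hk1 : R' ^ 2 ≤ k * δ ^ 2 := by
    have := Nat.le_ceil (R' ^ 2 / δ ^ 2)
    rwa [div_le_iff₀ (by positivity)] at this
  have hk2 : k * δ ^ 2 ≤ R' ^ 2 + 1 := by
    have h1 : (k : ℝ) < R' ^ 2 / δ ^ 2 + 1 := Nat.ceil_lt_add_one (by positivity)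
    have h2 : (k : ℝ) * δ ^ 2 ≤ (R' ^ 2 / δ ^ 2 + 1) * δ ^ 2 :=
      mul_le_mul_of_nonneg_right h1.le (by positivity)
    have h3 : (R' ^ 2 / δ ^ 2 + 1) * δ ^ 2 = R' ^ 2 + δ ^ 2 := by
      field_simp
    rw [h3] at h2
    have h4 : δ ^ 2 ≤ 1 := by
      calc δ ^ 2 ≤ 1 ^ 2 := by gcongr
        _ = 1 := one_pow 2
    linarith
  obtain ⟨s, g, hs, hg, hfk⟩ := game hf hηpos hδpos hunif hcon x₀ k
  set y := ∑ i ∈ s, (lp.single 2 i (g i) : lp E 2) with hy
  have hynorm : ‖y‖ ^ 2 = k * δ ^ 2 := by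
    have h1 := lp.norm_sum_single (E := E) (p := 2) (by norm_num) g s
    simp only [ENNReal.toReal_ofNat] at h1
    rw [← hy] at h1
    have h2 : ∑ i ∈ s, ‖g i‖ ^ (2 : ℝ) = k * δ ^ 2 := by
      rw [Finset.sum_congr rfl (fun i hi => by rw [hg i hi]), Finset.sum_const, hs,
        nsmul_eq_mul, Real.rpow_two]
    rw [h2, Real.rpow_two] at h1
    exact h1
  have hyR : R' ≤ ‖y‖ := by
    have h1 : R' ^ 2 ≤ ‖y‖ ^ 2 := by rw [hynorm]; exact hk1
    exact (sq_le_sq₀ hR'pos.le (norm_nonneg _)).1 h1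
  have hout : f (x₀ + y) = 0 := by
    by_contra h
    have h1 := hR (x₀ + y) h
    have h2 : ‖y‖ ≤ ‖x₀ + y‖ + ‖x₀‖ := by
      calc ‖y‖ = ‖(x₀ + y) - x₀‖ := by rw [add_sub_cancel_left]
        _ ≤ _ := norm_sub_le _ _
    have h3 := le_abs_self R
    linarith
  rw [hout] at hfk
  have h5 : k * (η * δ ^ 2) ≤ η * (R' ^ 2 + 1) := by
    calc k * (η * δ ^ 2) = η * (k * δ ^ 2) := by ring
      _ ≤ _ := mul_le_mul_of_nonneg_left hk2 hηpos.le
  have h6 : η * (R' ^ 2 + 1) = a / 2 := by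
    rw [hη]
    field_simp
  rw [h6] at h5
  linarith

end Game

end Pool.Agent.Helper40.UC
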