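import Mathlib

/-!
# The norm of an inner product has a uniformly continuous second derivative on its sphere
-/

namespace Pool.Agent.Helper40.UC

variable {X : Type*} [NormedAddCommGroup X] [NormedSpace ℝ X]

/-- The Cauchy-Schwarz inequality. -/
theorem cauchy (B : X →L[ℝ] X →L[ℝ] ℝ) (hs : ∀ x y, B x y = B y x) (hp : ∀ x, 0 ≤ B x x)
    (x y : X) : (B x y) ^ 2 ≤ B x x * B y y := by
  have h : ∀ t : ℝ, 0 ≤ B x x * (t * t) + (2 * B x y) * t + B y y := by
    intro t
    have h1 := hp (t • x + y)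
    simp only [map_add, map_smul, ContinuousLinearMap.add_apply, ContinuousLinearMap.smul_apply,
      smul_eq_mul] at h1
    rw [hs y x] at h1
    linarith
  have h2 := discrim_le_zero h
  rw [discrim] at h2
  nlinarith

/-- The norm given by an inner product that is equivalent to the given norm. -/
theorem norm_of_form (B : X →L[ℝ] X →L[ℝ] ℝ) (hs : ∀ x y, B x y = B y x) {C : ℝ}
    (hB : ∀ x, ‖x‖ ^ 2 ≤ B x x ∧ B x x ≤ C * ‖x‖ ^ 2) :
    ∃ N : X → ℝ,
        (∀ x y : X, N (x + y) ≤ N x + N y) ∧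
        (∀ (c : ℝ) (x : X), N (c • x) = |c| * N x) ∧
        (∃ a b : ℝ, 0 < a ∧ 0 < b ∧ ∀ x : X, a * ‖x‖ ≤ N x ∧ N x ≤ b * ‖x‖) ∧
        ContDiffOn ℝ 2 N {x : X | x ≠ 0} ∧
        UniformContinuousOn (fderiv ℝ (fderiv ℝ N)) {x : X | N x = 1} := by
  have hp : ∀ x, 0 ≤ B x x := fun x => (sq_nonneg _).trans (hB x).1
  have hpos : ∀ x, x ≠ 0 → 0 < B x x := fun x hx =>
    lt_of_lt_of_le (by positivity) (hB x).1
  have hN0 : ∀ x, 0 ≤ √(B x x) := fun x => Real.sqrt_nonneg _
  have hsq : ∀ x, √(B x x) ^ 2 = B x x := fun x => Real.sq_sqrt (hp x)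
  have hxN : ∀ x, ‖x‖ ≤ √(B x x) := fun x => Real.le_sqrt_of_sq_le (hB x).1
  -- smoothness of the square
  have hq : ContDiff ℝ 2 fun x => B x x :=
    (B.contDiff).clm_apply contDiff_id
  have hN2 : ContDiffOn ℝ 2 (fun x => √(B x x)) {x : X | x ≠ 0} := fun x hx =>
    ((hq.contDiffAt).sqrt (hpos x hx).ne').contDiffWithinAt
  have hopen : IsOpen {x : X | x ≠ 0} := isOpen_ne
  -- the first derivative
  have hq1 : ∀ x, HasFDerivAt (fun x => B x x) ((2 : ℝ) • B x) x := by
    intro x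
    have h1 := (B.hasFDerivAt (x := x)).clm_apply (hasFDerivAt_id x)
    refine h1.congr_fderiv ?_
    ext h
    simp only [ContinuousLinearMap.add_apply, ContinuousLinearMap.comp_apply,
      ContinuousLinearMap.flip_apply, ContinuousLinearMap.smul_apply, smul_eq_mul, id]
    rw [hs h x]
    simp
    ring
  have hN1 : ∀ x, x ≠ 0 → HasFDerivAt (fun x => √(B x x)) ((√(B x x))⁻¹ • B x) x := by
    intro x hx
    have h1 := (hq1 x).sqrt (hpos x hx).ne'
    refine h1.congr_fderiv ?_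
    rw [smul_smul]
    congr 1
    have := (Real.sqrt_pos.2 (hpos x hx)).ne'
    field_simp
  -- the second derivative
  have hN3 : ∀ x, x ≠ 0 → fderiv ℝ (fderiv ℝ fun x => √(B x x)) x =
      (√(B x x))⁻¹ • B + (-((√(B x x)) ^ 2)⁻¹ • ((√(B x x))⁻¹ • B x)).smulRight (B x) := by
    intro x hx
    have h0 : fderiv ℝ (fun x => √(B x x)) =ᶠ[nhds x] fun x => (√(B x x))⁻¹ • B x := by
      filter_upwards [hopen.mem_nhds hx] with y hy
      exact (hN1 y hy).fderiv
    rw [h0.fderiv_eq]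
    have h1 : HasFDerivAt (fun x => (√(B x x))⁻¹)
        (-((√(B x x)) ^ 2)⁻¹ • ((√(B x x))⁻¹ • B x)) x :=
      (hasDerivAt_inv (Real.sqrt_pos.2 (hpos x hx)).ne').comp_hasFDerivAt x (hN1 x hx)
    have h2 := h1.smul (B.hasFDerivAt (x := x))
    exact h2.fderiv
  refine ⟨fun x => √(B x x), ?_, ?_, ⟨1, √(max C 1), one_pos, by positivity, ?_⟩, hN2, ?_⟩
  · intro x y
    have h1 := cauchy B hs hp x y
    have h2 : B x y ≤ √(B x x) * √(B y y) := by
      rw [← Real.sqrt_mul (hp x)]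
      exact Real.le_sqrt_of_sq_le h1
    rw [Real.sqrt_le_left (add_nonneg (hN0 x) (hN0 y))]
    simp only [map_add, ContinuousLinearMap.add_apply]
    rw [hs y x]
    have h3 := hsq x
    have h4 := hsq y
    nlinarith
  · intro c x
    simp only [map_smul, ContinuousLinearMap.smul_apply, smul_eq_mul]
    rw [← mul_assoc, ← sq, Real.sqrt_mul (sq_nonneg c), Real.sqrt_sq_eq_abs]
  · intro x
    refine ⟨by rw [one_mul]; exact hxN x, ?_⟩
    rw [← Real.sqrt_sq (norm_nonneg x), ← Real.sqrt_mul (by positivity)]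
    apply Real.sqrt_le_sqrt
    refine (hB x).2.trans ?_
    gcongr
    exact le_max_left _ _
  · -- Lipschitz on the sphere
    have hsph : ∀ x, √(B x x) = 1 → x ≠ 0 ∧ ‖x‖ ≤ 1 := by
      intro x hx
      refine ⟨?_, hx ▸ hxN x⟩
      rintro rfl
      simp at hx
    have hval : ∀ x, √(B x x) = 1 → fderiv ℝ (fderiv ℝ fun x => √(B x x)) x =
        B - (B x).smulRight (B x) := by
      intro x hx
      rw [hN3 x (hsph x hx).1, hx]
      ext h k
      simp
      ring
    have hlip : LipschitzOnWith (Real.toNNReal (2 * ‖B‖ * ‖B‖))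
        (fderiv ℝ (fderiv ℝ fun x => √(B x x))) {x : X | √(B x x) = 1} := by
      refine LipschitzOnWith.of_dist_le_mul fun x hx y hy => ?_
      rw [Set.mem_setOf_eq] at hx hy
      have hx1 := (hsph x hx).2
      have hy1 := (hsph y hy).2
      have h1 : dist (fderiv ℝ (fderiv ℝ fun x => √(B x x)) x)
          (fderiv ℝ (fderiv ℝ fun x => √(B x x)) y) =
          ‖fderiv ℝ (fderiv ℝ fun x => √(B x x)) x -
          fderiv ℝ (fderiv ℝ fun x => √(B x x)) y‖ :=
        dist_eq_norm (fderiv ℝ (fderiv ℝ fun x => √(B x x)) x)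
          (fderiv ℝ (fderiv ℝ fun x => √(B x x)) y)
      rw [h1, hval x hx, hval y hy, Real.coe_toNNReal _ (by positivity), dist_eq_norm]
      have h2 : B - (B x).smulRight (B x) - (B - (B y).smulRight (B y)) =
          (B (y - x)).smulRight (B x) + (B y).smulRight (B (y - x)) := by
        ext h k
        simp
        ring
      rw [h2]
      have hb1 : ‖B (y - x)‖ ≤ ‖B‖ * ‖x - y‖ := by
        rw [norm_sub_rev]
        exact B.le_opNorm _
      have hb2 : ‖B x‖ ≤ ‖B‖ := (B.le_opNorm x).trans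
        (mul_le_of_le_one_right (norm_nonneg _) hx1)
      have hb3 : ‖B y‖ ≤ ‖B‖ := (B.le_opNorm y).trans
        (mul_le_of_le_one_right (norm_nonneg _) hy1)
      have hc1 : ‖(B (y - x)).smulRight (B x)‖ ≤ (‖B‖ * ‖x - y‖) * ‖B‖ := by
        have h3 : ‖(B (y - x)).smulRight (B x)‖ = ‖B (y - x)‖ * ‖B x‖ :=
          ContinuousLinearMap.norm_smulRight_apply _ _
        rw [h3]
        gcongr
      have hc2 : ‖(B y).smulRight (B (y - x))‖ ≤ ‖B‖ * (‖B‖ * ‖x - y‖) := by
        have h3 : ‖(B y).smulRight (B (y - x))‖ = ‖B y‖ * ‖B (y - x)‖ :=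
          ContinuousLinearMap.norm_smulRight_apply _ _
        rw [h3]
        gcongr
      calc _ ≤ ‖(B (y - x)).smulRight (B x)‖ + ‖(B y).smulRight (B (y - x))‖ :=
            norm_add_le ((B (y - x)).smulRight (B x)) ((B y).smulRight (B (y - x)))
        _ ≤ (‖B‖ * ‖x - y‖) * ‖B‖ + ‖B‖ * (‖B‖ * ‖x - y‖) := add_le_add hc1 hc2
        _ = 2 * ‖B‖ * ‖B‖ * ‖x - y‖ := by ring
    exact hlip.uniformContinuousOn

end Pool.Agent.Helper40.UC
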