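import Pool.Agent.Helper40.UC.Game
import Pool.Agent.Helper40.UC.Norm

/-!
# The inner product of an `ℓ₂`-sum of uniformly Hilbertian spaces
-/

open scoped lp ENNReal

namespace Pool.Agent.Helper40.UC

theorem Hilb.mono {C C' : ℝ} {E : Type*} [NormedAddCommGroup E] [NormedSpace ℝ E]
    (h : Hilb C E) (hC : C ≤ C') : Hilb C' E := by
  obtain ⟨A, hA⟩ := h
  exact ⟨A, fun y => ⟨(hA y).1, (hA y).2.trans (by gcongr)⟩⟩

/-- A finite dimensional space is isomorphic to a Hilbert space. -/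
theorem hilb_of_finite (E : Type*) [NormedAddCommGroup E] [NormedSpace ℝ E]
    [FiniteDimensional ℝ E] : ∃ C, Hilb C E := by
  let T : E ≃L[ℝ] EuclideanSpace ℝ (Fin (Module.finrank ℝ E)) := toEuclidean
  let S : E →L[ℝ] EuclideanSpace ℝ (Fin (Module.finrank ℝ E)) := T
  let c : ℝ := ‖(T.symm : EuclideanSpace ℝ (Fin (Module.finrank ℝ E)) →L[ℝ] E)‖ ^ 2
  refine ⟨c * ‖S‖ ^ 2, c • ((innerSL ℝ).bilinearComp S S), fun y => ?_⟩
  have h1 : (c • ((innerSL ℝ).bilinearComp S S)) y y = c * ‖S y‖ ^ 2 := by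
    change c * inner ℝ (S y) (S y) = _
    rw [real_inner_self_eq_norm_sq]
  rw [h1]
  constructor
  · have h2 : ‖y‖ ≤ ‖(T.symm : EuclideanSpace ℝ (Fin (Module.finrank ℝ E)) →L[ℝ] E)‖ * ‖S y‖ := by
      have h3 := (T.symm : EuclideanSpace ℝ (Fin (Module.finrank ℝ E)) →L[ℝ] E).le_opNorm (S y)
      have h4 : (T.symm : EuclideanSpace ℝ (Fin (Module.finrank ℝ E)) →L[ℝ] E) (S y) = y :=
        T.symm_apply_apply y
      rwa [h4] at h3
    calc ‖y‖ ^ 2 ≤ (‖(T.symm : EuclideanSpace ℝ (Fin (Module.finrank ℝ E)) →L[ℝ] E)‖ *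
          ‖S y‖) ^ 2 := by gcongr
      _ = c * ‖S y‖ ^ 2 := by rw [mul_pow]
  · calc c * ‖S y‖ ^ 2 ≤ c * (‖S‖ * ‖y‖) ^ 2 := by
          gcongr
          exact S.le_opNorm y
      _ = c * ‖S‖ ^ 2 * ‖y‖ ^ 2 := by ring

/-- The property passes through isomorphisms. -/
theorem Hilb.of_equiv {C : ℝ} {E F : Type*} [NormedAddCommGroup E] [NormedSpace ℝ E]
    [NormedAddCommGroup F] [NormedSpace ℝ F] (h : Hilb C F) (T : E ≃L[ℝ] F) :
    ∃ C', Hilb C' E := by
  obtain ⟨A, hA⟩ := h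
  let S : E →L[ℝ] F := T
  let c : ℝ := ‖(T.symm : F →L[ℝ] E)‖ ^ 2
  refine ⟨c * (|C| * ‖S‖ ^ 2), c • (A.bilinearComp S S), fun y => ?_⟩
  have h1 : (c • (A.bilinearComp S S)) y y = c * A (S y) (S y) := rfl
  rw [h1]
  constructor
  · have h2 : ‖y‖ ≤ ‖(T.symm : F →L[ℝ] E)‖ * ‖S y‖ := by
      have h3 := (T.symm : F →L[ℝ] E).le_opNorm (S y)
      have h4 : (T.symm : F →L[ℝ] E) (S y) = y := T.symm_apply_apply y
      rwa [h4] at h3
    calc ‖y‖ ^ 2 ≤ (‖(T.symm : F →L[ℝ] E)‖ * ‖S y‖) ^ 2 := by gcongr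
      _ = c * ‖S y‖ ^ 2 := by rw [mul_pow]
      _ ≤ _ := by
        gcongr
        exact (hA (S y)).1
  · rw [mul_assoc]
    gcongr
    refine (hA (S y)).2.trans ?_
    calc C * ‖S y‖ ^ 2 ≤ |C| * (‖S‖ * ‖y‖) ^ 2 := by
          gcongr
          · exact le_abs_self C
          · exact S.le_opNorm y
      _ = _ := by ring

variable {E : ℕ → Type*} [∀ n, NormedAddCommGroup (E n)] [∀ n, NormedSpace ℝ (E n)]

/-- The `ℓ₂`-sum of uniformly Hilbertian spaces is Hilbertian. -/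
theorem form_of_hilb {C : ℝ} (h : ∀ n, Hilb C (E n)) :
    ∃ B : lp E 2 →L[ℝ] lp E 2 →L[ℝ] ℝ, (∀ x y, B x y = B y x) ∧
      ∀ x, ‖x‖ ^ 2 ≤ B x x ∧ B x x ≤ (max C 0) * ‖x‖ ^ 2 := by
  choose A hA using h
  set D := max C 0 with hD
  have hD0 : 0 ≤ D := le_max_right _ _
  -- symmetrize
  let S : ∀ n, E n →L[ℝ] E n →L[ℝ] ℝ := fun n => (1 / 2 : ℝ) • (A n + (A n).flip)
  have hS : ∀ n x y, S n x y = (1 / 2) * (A n x y + A n y x) := fun n x y => rfl
  have hSs : ∀ n x y, S n x y = S n y x := fun n x y => by rw [hS, hS, add_comm]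
  have hSA : ∀ n x, S n x x = A n x x := fun n x => by rw [hS]; ring
  have hS0 : ∀ n x, 0 ≤ S n x x := fun n x => by
    rw [hSA]
    exact (sq_nonneg _).trans (hA n x).1
  have hSD : ∀ n x, S n x x ≤ D * ‖x‖ ^ 2 := fun n x => by
    rw [hSA]
    refine (hA n x).2.trans ?_
    gcongr
    exact le_max_left _ _
  have hSb : ∀ n x y, |S n x y| ≤ D * (‖x‖ * ‖y‖) := by
    intro n x y
    have h1 := cauchy (S n) (hSs n) (hS0 n) x y
    rw [← Real.sqrt_sq_eq_abs]
    rw [Real.sqrt_le_left (by positivity)]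
    refine h1.trans ?_
    calc S n x x * S n y y ≤ (D * ‖x‖ ^ 2) * (D * ‖y‖ ^ 2) :=
          mul_le_mul (hSD n x) (hSD n y) (hS0 n y) (by positivity)
      _ = _ := by ring
  -- Hölder
  have hsum : ∀ x : lp E 2, Summable fun n => ‖x n‖ ^ 2 := by
    intro x
    have h1 := (lp.hasSum_norm (p := 2) (by norm_num) x).summable
    simpa using h1
  have hnorm : ∀ x : lp E 2, ∑' n, ‖x n‖ ^ 2 = ‖x‖ ^ 2 := by
    intro x
    have h1 := (lp.hasSum_norm (p := 2) (by norm_num) x).tsum_eq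
    simpa using h1
  have hprod : ∀ x y : lp E 2, Summable fun n => ‖x n‖ * ‖y n‖ := by
    intro x y
    refine Summable.of_nonneg_of_le (fun n => by positivity) (fun n => ?_)
      ((hsum x).add (hsum y))
    nlinarith [sq_nonneg (‖x n‖ - ‖y n‖), norm_nonneg (x n), norm_nonneg (y n)]
  have hsm : ∀ x y : lp E 2, Summable fun n => S n (x n) (y n) := by
    intro x y
    refine Summable.of_norm_bounded ((hprod x y).mul_left D) fun n => ?_
    rw [Real.norm_eq_abs]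
    exact hSb n _ _
  let L : lp E 2 →ₗ[ℝ] lp E 2 →ₗ[ℝ] ℝ := LinearMap.mk₂ ℝ (fun x y => ∑' n, S n (x n) (y n))
    (by
      intro x x' y
      rw [← (hsm x y).tsum_add (hsm x' y)]
      refine tsum_congr fun n => ?_
      simp)
    (by
      intro c x y
      rw [smul_eq_mul, ← tsum_mul_left]
      refine tsum_congr fun n => ?_
      simp)
    (by
      intro x y y'
      rw [← (hsm x y).tsum_add (hsm x y')]
      refine tsum_congr fun n => ?_
      simp)
    (by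
      intro c x y
      rw [smul_eq_mul, ← tsum_mul_left]
      refine tsum_congr fun n => ?_
      simp)
  have hL : ∀ x y, L x y = ∑' n, S n (x n) (y n) := fun x y => rfl
  have hLs : ∀ x y, L x y = L y x := fun x y => by
    rw [hL, hL]
    exact tsum_congr fun n => hSs n _ _
  have hL1 : ∀ x, ‖x‖ ^ 2 ≤ L x x := by
    intro x
    rw [hL, ← hnorm x]
    refine (hsum x).tsum_le_tsum (fun n => ?_) (hsm x x)
    rw [hSA]
    exact (hA n _).1
  have hL2 : ∀ x, L x x ≤ D * ‖x‖ ^ 2 := by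
    intro x
    rw [hL, ← hnorm x, ← tsum_mul_left]
    exact (hsm x x).tsum_le_tsum (fun n => hSD n _) ((hsum x).mul_left D)
  have hLb : ∀ x y, ‖L x y‖ ≤ D * ‖x‖ * ‖y‖ := by
    intro x y
    -- the Cauchy-Schwarz inequality for `L`
    have h : ∀ t : ℝ, 0 ≤ L x x * (t * t) + (2 * L x y) * t + L y y := by
      intro t
      have h1 : 0 ≤ L (t • x + y) (t • x + y) := (sq_nonneg _).trans (hL1 _)
      simp only [map_add, map_smul, LinearMap.add_apply, LinearMap.smul_apply,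
        smul_eq_mul] at h1
      rw [hLs y x] at h1
      linarith
    have h2 := discrim_le_zero h
    rw [discrim] at h2
    have h3 : (L x y) ^ 2 ≤ L x x * L y y := by nlinarith
    rw [Real.norm_eq_abs, ← Real.sqrt_sq_eq_abs]
    rw [Real.sqrt_le_left (by positivity)]
    refine h3.trans ?_
    have h4 : 0 ≤ L y y := (sq_nonneg _).trans (hL1 _)
    calc L x x * L y y ≤ (D * ‖x‖ ^ 2) * (D * ‖y‖ ^ 2) :=
          mul_le_mul (hL2 x) (hL2 y) h4 (by positivity)
      _ = _ := by ring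
  refine ⟨L.mkContinuous₂ D hLb, hLs, fun x => ⟨hL1 x, hL2 x⟩⟩

end Pool.Agent.Helper40.UC
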