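import Pool.Agent.Helper40.UC.Game

/-!
# Bumps with uniformly continuous second derivative and isomorphisms
-/

namespace Pool.Agent.Helper40.UC

variable {X Y : Type*} [NormedAddCommGroup X] [NormedSpace ℝ X] [NormedAddCommGroup Y]
  [NormedSpace ℝ Y]

theorem bump_transfer (T : X ≃L[ℝ] Y) {f : X → ℝ} (hf0 : f ≠ 0)
    (hb : Bornology.IsBounded (Function.support f)) (hf : ContDiff ℝ 2 f)
    (hu : UniformContinuous (fderiv ℝ (fderiv ℝ f))) :
    ∃ g : Y → ℝ, g ≠ 0 ∧ Bornology.IsBounded (Function.support g) ∧ ContDiff ℝ 2 g ∧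
      UniformContinuous (fderiv ℝ (fderiv ℝ g)) := by
  let S : Y →L[ℝ] X := T.symm
  have hf1 : Differentiable ℝ f := hf.differentiable (by norm_num)
  have hf2 : Differentiable ℝ (fderiv ℝ f) :=
    (hf.fderiv_right (m := 1) (by norm_num)).differentiable (by norm_num)
  refine ⟨fun y => f (S y), ?_, ?_, hf.comp S.contDiff, ?_⟩
  · obtain ⟨x, hx⟩ := Function.ne_iff.1 hf0
    refine Function.ne_iff.2 ⟨T x, ?_⟩
    change f (T.symm (T x)) ≠ 0
    rwa [T.symm_apply_apply]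
  · obtain ⟨R, hR⟩ := hb.exists_norm_le
    refine (isBounded_iff_forall_norm_le).2 ⟨‖(T : X →L[ℝ] Y)‖ * R, fun y hy => ?_⟩
    have h1 := hR (S y) hy
    have h2 : (T : X →L[ℝ] Y) (S y) = y := T.apply_symm_apply y
    calc ‖y‖ = ‖(T : X →L[ℝ] Y) (S y)‖ := by rw [h2]
      _ ≤ ‖(T : X →L[ℝ] Y)‖ * ‖S y‖ := (T : X →L[ℝ] Y).le_opNorm _
      _ ≤ _ := mul_le_mul_of_nonneg_left h1 (norm_nonneg _)
  · -- the second derivative
    have h1 : fderiv ℝ (fun y => f (S y)) = fun y => (fderiv ℝ f (S y)).comp S := by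
      ext1 y
      exact ((hf1 (S y)).hasFDerivAt.comp y S.hasFDerivAt).fderiv
    have h2 : ∀ y h k, fderiv ℝ (fderiv ℝ fun y => f (S y)) y h k =
        fderiv ℝ (fderiv ℝ f) (S y) (S h) (S k) := by
      intro y h k
      rw [h1]
      have h3 : HasFDerivAt (fun y => fderiv ℝ f (S y))
          ((fderiv ℝ (fderiv ℝ f) (S y)).comp S) y :=
        (hf2 (S y)).hasFDerivAt.comp y S.hasFDerivAt
      have h4 := h3.clm_comp (hasFDerivAt_const S y)
      rw [h4.fderiv]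
      simp
    refine (@Metric.uniformContinuous_iff Y (Y →L[ℝ] Y →L[ℝ] ℝ) _ _ _).2 fun ε hε => ?_
    set K := ‖S‖ ^ 2 + 1 with hK
    have hKpos : 0 < K := by positivity
    obtain ⟨δ, hδ, -, hδu⟩ := exists_unif hu (η := ε / (2 * K)) (by positivity)
    refine ⟨δ / (‖S‖ + 1), by positivity, fun x y hxy => ?_⟩
    have hS : dist (S x) (S y) ≤ δ := by
      rw [dist_eq_norm, ← map_sub]
      rw [dist_eq_norm, lt_div_iff₀ (by positivity)] at hxy
      have h5 := S.le_opNorm (x - y)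
      nlinarith [norm_nonneg (x - y)]
    have h5 := hδu (S x) (S y) hS
    have h6 : dist (fderiv ℝ (fderiv ℝ fun y => f (S y)) x)
        (fderiv ℝ (fderiv ℝ fun y => f (S y)) y) =
        ‖fderiv ℝ (fderiv ℝ fun y => f (S y)) x - fderiv ℝ (fderiv ℝ fun y => f (S y)) y‖ :=
      dist_eq_norm (fderiv ℝ (fderiv ℝ fun y => f (S y)) x)
        (fderiv ℝ (fderiv ℝ fun y => f (S y)) y)
    rw [h6]
    have h7 : ‖fderiv ℝ (fderiv ℝ fun y => f (S y)) x -
        fderiv ℝ (fderiv ℝ fun y => f (S y)) y‖ ≤ ε / (2 * K) * ‖S‖ ^ 2 := by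
      refine ContinuousLinearMap.opNorm_le_bound _ (by positivity) fun h => ?_
      refine ContinuousLinearMap.opNorm_le_bound _ (by positivity) fun k => ?_
      have h8 : (fderiv ℝ (fderiv ℝ fun y => f (S y)) x -
          fderiv ℝ (fderiv ℝ fun y => f (S y)) y) h k =
          (fderiv ℝ (fderiv ℝ f) (S x) - fderiv ℝ (fderiv ℝ f) (S y)) (S h) (S k) := by
        rw [ContinuousLinearMap.sub_apply, ContinuousLinearMap.sub_apply, h2, h2,
          ContinuousLinearMap.sub_apply, ContinuousLinearMap.sub_apply]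
      rw [h8]
      have h9 := ((fderiv ℝ (fderiv ℝ f) (S x) - fderiv ℝ (fderiv ℝ f) (S y)) (S h)).le_opNorm
        (S k)
      have h10 := (fderiv ℝ (fderiv ℝ f) (S x) - fderiv ℝ (fderiv ℝ f) (S y)).le_opNorm (S h)
      calc _ ≤ ‖(fderiv ℝ (fderiv ℝ f) (S x) - fderiv ℝ (fderiv ℝ f) (S y)) (S h)‖ * ‖S k‖ := h9
        _ ≤ (‖fderiv ℝ (fderiv ℝ f) (S x) - fderiv ℝ (fderiv ℝ f) (S y)‖ * ‖S h‖) * ‖S k‖ := by
            gcongr
        _ ≤ (ε / (2 * K) * (‖S‖ * ‖h‖)) * (‖S‖ * ‖k‖) := by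
            gcongr
            · exact S.le_opNorm h
            · exact S.le_opNorm k
        _ = _ := by ring
    refine lt_of_le_of_lt h7 ?_
    rw [div_mul_eq_mul_div, div_lt_iff₀ (by positivity)]
    have h8 : ‖S‖ ^ 2 < 2 * K := by
      rw [hK]
      nlinarith [sq_nonneg ‖S‖]
    exact mul_lt_mul_of_pos_left h8 hε

end Pool.Agent.Helper40.UC
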